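import Mathlib
import Pool.Agent.H294R2.BF.L1

/-!
# Beck-Fiala: the bound `t` instead of `2t - 1`

Every real matrix whose columns have `ℓ¹` norm at most `t` has a signing `x` with
`|(A x)_i| ≤ t` for all `i`. For incidence matrices: every set system of maximum degree `t` has
discrepancy at most `t`.

The proof is topological: a cubical version of Tucker's lemma (file `H294R2/BF/Cube.lean`).
-/

namespace Pool.Agent.Results.MP_e8ee11_co.BeckFialaBoundT

theorem result :
    ∀ (m n : ℕ) (t : ℝ) (A : Fin m → Fin n → ℝ), 0 ≤ t →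
      (∀ j : Fin n, ∑ i : Fin m, |A i j| ≤ t) →
      ∃ x : Fin n → ℝ, (∀ j, x j = 1 ∨ x j = -1) ∧ ∀ i : Fin m, |∑ j : Fin n, A i j * x j| ≤ t :=
  fun _ _ t A ht hA => H294BF.l1_signing A t ht hA

end Pool.Agent.Results.MP_e8ee11_co.BeckFialaBoundT
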