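import Mathlib
import Pool.Agent.H167R2.KPDist

/-!
# The Beck–Fiala problem for set systems with set sizes up to `exp (t / polylog t)`,
dimension-free form

There is an absolute constant `C` such that for every system of `m` sets on `n` elements of
maximum degree at most `t` in which every set has at most `s` elements, every `r` and every
`x⁰ ∈ [-1,1]^n`, with `log^{(k)}` the `k`-th iterate of `x ↦ log (1 + x)`:

* there is a colouring `χ` for which every set sum of `χ - x⁰` is at most
  `C r (√t + (1 + log t)^2 √(log s)) + C (√t + (1 + log t)^{3/2} √(log^{(r+1)} (min m n)))`;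
* for every `0 < ε ≤ 1/2` there is a finitely supported probability distribution on points
  `y ∈ [-1,1]^n` such that surely every set sum of `y - x⁰` is at most
  `C (r + 1) (√t + (1 + log t)^2 √(log s)) + C (√t + (1 + log t)^{3/2} √(log^{(r+1)} (log (1/ε))))`
  and every element is coloured `±1` with probability at least `1 - ε`. This bound does not
  depend on `m` or `n`.
-/

namespace Pool.Agent.Results.MP_e8ee11_co.BeckFialaIterFree

theorem result : ∃ C : ℝ, ∀ m n t s : ℕ, 1 ≤ t → 1 ≤ s → ∀ S : Fin m → Finset (Fin n),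
    (∀ j, (Finset.univ.filter (fun i => j ∈ S i)).card ≤ t) → (∀ i, (S i).card ≤ s) →
    ∀ (r : ℕ) (x₀ : Fin n → ℝ), (∀ j, |x₀ j| ≤ 1) →
    (∃ χ : Fin n → ℤ, (∀ j, χ j = 1 ∨ χ j = -1) ∧
      ∀ i, |∑ j ∈ S i, ((χ j : ℝ) - x₀ j)| ≤
        C * r * (Real.sqrt t + (1 + Real.log t) ^ 2 * Real.sqrt (Real.log s))
        + C * (Real.sqrt t + (1 + Real.log t) ^ (3 / 2 : ℝ)
            * Real.sqrt ((fun x : ℝ => Real.log (1 + x))^[r + 1] (min m n : ℕ)))) ∧
    ∀ ε : ℝ, 0 < ε → ε ≤ 1 / 2 →
    ∃ (K : ℕ) (w : Fin K → ℝ) (y : Fin K → Fin n → ℝ),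
      (∀ k, 0 ≤ w k) ∧ ∑ k, w k = 1 ∧
      (∀ k j, -1 ≤ y k j ∧ y k j ≤ 1) ∧
      (∀ k i, |∑ j ∈ S i, (y k j - x₀ j)| ≤
        C * (r + 1) * (Real.sqrt t + (1 + Real.log t) ^ 2 * Real.sqrt (Real.log s))
        + C * (Real.sqrt t + (1 + Real.log t) ^ (3 / 2 : ℝ)
            * Real.sqrt ((fun x : ℝ => Real.log (1 + x))^[r + 1] (Real.log (1 / ε))))) ∧
      ∀ j, ∑ k ∈ Finset.univ.filter (fun k => ¬ (y k j = 1 ∨ y k j = -1)), w k ≤ ε := by
  classical
  refine ⟨10000000000, fun m n t s ht hs S hdeg hsize r x₀ hx₀ => ?_⟩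
  have htR : (1 : ℝ) ≤ t := by exact_mod_cast ht
  have hsR : (1 : ℝ) ≤ s := by exact_mod_cast hs
  let a : Fin m → Fin n → ℝ := fun i j => if j ∈ S i then 1 else 0
  have hmem : ∀ i j, a i j ≠ 0 ↔ j ∈ S i := by
    intro i j
    simp only [a]
    split_ifs with h <;> simp [h]
  have a01 : ∀ i j, a i j = 0 ∨ a i j = 1 := by
    intro i j
    simp only [a]
    split_ifs <;> simp
  have col : ∀ j, ∑ i, a i j ≤ (t : ℝ) := by
    intro j
    have h1 : ∑ i, a i j = ((Finset.univ.filter (fun i => j ∈ S i)).card : ℝ) := by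
      rw [Finset.card_filter]
      push_cast
      rfl
    rw [h1]
    exact_mod_cast hdeg j
  have hnb : ∀ v, (H167BK.nb a v).card ≤ t * s := by
    intro v
    by_cases hv : ∃ i, v ∈ S i
    · obtain ⟨i0, hi0⟩ := hv
      have h1 : H167BK.nb a v ⊆ (Finset.univ.filter (fun i => v ∈ S i)).biUnion S := by
        intro w hw
        unfold H167BK.nb at hw
        rw [Finset.mem_filter] at hw
        rw [Finset.mem_biUnion]
        rcases hw.2 with h | ⟨i, h2, h3⟩
        · exact ⟨i0, Finset.mem_filter.mpr ⟨Finset.mem_univ _, hi0⟩, by rw [h]; exact hi0⟩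
        · exact ⟨i, Finset.mem_filter.mpr ⟨Finset.mem_univ _, (hmem i v).mp h2⟩,
            (hmem i w).mp h3⟩
      refine (Finset.card_le_card h1).trans ?_
      refine (Finset.card_biUnion_le_card_mul _ S s (fun i _ => hsize i)).trans ?_
      exact Nat.mul_le_mul_right _ (hdeg v)
    · have h1 : H167BK.nb a v ⊆ {v} := by
        intro w hw
        unfold H167BK.nb at hw
        rw [Finset.mem_filter] at hw
        rcases hw.2 with h | ⟨i, h2, h3⟩
        · rw [Finset.mem_singleton]; exact h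
        · exact absurd ⟨i, (hmem i v).mp h2⟩ hv
      refine (Finset.card_le_card h1).trans ?_
      rw [Finset.card_singleton]
      exact Nat.one_le_iff_ne_zero.mpr (Nat.mul_ne_zero (by omega) (by omega))
  have hlt : 0 ≤ Real.log (t : ℝ) := Real.log_nonneg htR
  have hls : 0 ≤ Real.log (s : ℝ) := Real.log_nonneg hsR
  have a1 : ∀ i j, |a i j| ≤ 1 := by
    intro i j
    rcases a01 i j with h | h <;> rw [h] <;> norm_num
  have col2 : ∀ j, ∑ i, a i j ^ 2 ≤ (t : ℝ) := by
    intro j
    refine le_trans (le_of_eq (Finset.sum_congr rfl fun i _ => ?_)) (col j)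
    rcases a01 i j with h | h <;> rw [h] <;> norm_num
  have H : H167KN.Hyp a (t : ℝ) (t * s) := ⟨a1, htR, col2,
    Nat.one_le_iff_ne_zero.mpr (Nat.mul_ne_zero (by omega) (by omega)), hnb⟩
  have hrow : ∀ (y : Fin n → ℝ) (i : Fin m),
      ∑ j ∈ S i, (y j - x₀ j) = ∑ v, a i v * (y v - x₀ v) := by
    intro y i
    rw [← Finset.sum_filter_add_sum_filter_not Finset.univ (fun v => v ∈ S i)]
    have h2 : ∑ v ∈ Finset.univ.filter (fun v => ¬ v ∈ S i), a i v * (y v - x₀ v) = 0 := by
      refine Finset.sum_eq_zero fun v hv => ?_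
      have h3 := (Finset.mem_filter.mp hv).2
      simp only [a, if_neg h3, zero_mul]
    rw [h2, add_zero]
    have h4 : Finset.univ.filter (fun v => v ∈ S i) = S i := by ext v; simp
    rw [h4]
    refine Finset.sum_congr rfl fun v hv => ?_
    simp only [a, if_pos hv, one_mul]
  refine ⟨?_, fun ε hε0 hε => ?_⟩
  · have hP := H167KN.par_set a (t : ℝ) (t * s) H a01
    have hc1 := H167KN.c1_set t s ht hs
    set q : ℝ := ((min m n : ℕ) : ℝ) with hq
    set z : ℝ := H167BK.slog^[r + 1] q with hz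
    have hn0 : 0 ≤ q := Nat.cast_nonneg _
    have hz0 : 0 ≤ z := H167BK.slog_iter_nonneg _ hn0
    have hl0 : 0 ≤ H167BK.slog^[r] q := H167BK.slog_iter_nonneg _ hn0
    set ℓ : ℝ := 1 + Real.log (t : ℝ) with hℓ
    have hℓ1 : 1 ≤ ℓ := by linarith
    have hℓ2 : ℓ ≤ ℓ ^ 2 := by nlinarith
    have hcard : ((min (Fintype.card (Fin m)) (Fintype.card (Fin n)) : ℕ) : ℝ) = q := by
      rw [Fintype.card_fin, Fintype.card_fin]
    obtain ⟨y, hy1, hy2⟩ := H167KN.matrix_form' a (t : ℝ) (t * s) _ _ _ hP r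
      (6 * ℓ + 2 * z) (by linarith) (by
        rw [hcard]
        have h1 : Real.log (20 * (t : ℝ) ^ 2 * (1 + H167BK.slog^[r] q))
            = Real.log 20 + 2 * Real.log t + z := by
          have ht0 : (0 : ℝ) < t := by linarith
          rw [Real.log_mul (by positivity) (by linarith),
            Real.log_mul (by norm_num) (by positivity),
            Real.log_pow, hz, Function.iterate_succ_apply']
          unfold H167BK.slog
          push_cast
          ring
        rw [h1]
        have h2 := H167KM.log_20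
        linarith) x₀ hx₀
    have hA := H167KN.cst_set (t : ℝ) htR _ (Real.log s) 0 hls le_rfl (by
      refine hc1.trans ?_
      rw [← hℓ]
      have h1 : 0 ≤ ℓ ^ 2 := by positivity
      have h2 : 0 ≤ ℓ * Real.log s := by positivity
      linarith)
    have hB := H167KN.cst_set (t : ℝ) htR (6 * ℓ + 2 * z) 0 z le_rfl hz0 (by
      rw [← hℓ]
      linarith)
    rw [← hℓ, Real.sqrt_zero, mul_zero, add_zero] at hA
    rw [← hℓ, Real.sqrt_zero, mul_zero, add_zero] at hB
    refine ⟨fun j => if y j = 1 then 1 else -1, fun j => ?_, fun i => ?_⟩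
    · by_cases h : y j = 1
      · left; simp [h]
      · right; simp [h]
    · have hyv : ∀ j, (((if y j = 1 then 1 else -1 : ℤ)) : ℝ) = y j := by
        intro j
        rcases eq_or_eq_neg_of_abs_eq (hy1 j) with h | h
        · simp [h]
        · rw [h]; norm_num
      have hsum : ∑ j ∈ S i, (((if y j = 1 then 1 else -1 : ℤ) : ℝ) - x₀ j)
          = ∑ v, a i v * (y v - x₀ v) := by
        rw [← hrow y i]
        exact Finset.sum_congr rfl fun v _ => by rw [hyv v]
      rw [hsum]
      have h1 := hy2 i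
      have h2 : (fun x : ℝ => Real.log (1 + x))^[r + 1] ((min m n : ℕ) : ℝ) = z := rfl
      rw [h2]
      have h3 := mul_le_mul_of_nonneg_left hA (Nat.cast_nonneg r : (0 : ℝ) ≤ (r : ℝ))
      linarith
  · obtain ⟨K, w, y, h1, h2, h3, h4, h5⟩ := H167KN.set_dist m n a t s ht hs H a01 r x₀ hx₀
      ε hε0 hε
    refine ⟨K, w, y, h1, h2, h3, fun k i => ?_, h5⟩
    rw [hrow (y k) i]
    exact h4 k i

end Pool.Agent.Results.MP_e8ee11_co.BeckFialaIterFree
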