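import Mathlib
import Pool.Agent.H167R2.BJComb
import Pool.Agent.H167R2.KLDist

/-!
# Beck–Fiala for `t` above `log n`, up to powers of `log log n`, in dimension-free form

Let `a` be a real `m × n` matrix with entries `|a i j| ≤ 1` and column sums `∑ i, |a i j| ≤ t`
(for example the incidence matrix of a set system of maximum degree at most `t`), and let
`0 < ε ≤ 1/2`. Then there is a finitely supported probability distribution on points
`y ∈ [-1,1]^n` such that every `y` in the support satisfies, for all rows `i`,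
`|∑ j, a i j * y j| ≤ 3120 √t + 940000 √(log (1/ε)) (1 + log t)^(3/2)` (and also
`≤ 7400 √t + 1800 log (1/ε)`), and every coordinate `j` is a sign `±1` with probability at least
`1 - ε`. The bound does not depend on `n` or `m`.
-/

namespace Pool.Agent.Results.MP_e8ee11_co.BeckFialaLogN

theorem result (m n : ℕ) (a : Fin m → Fin n → ℝ) (t : ℝ) (ht : 1 ≤ t)
    (ha : ∀ i j, |a i j| ≤ 1) (hcol : ∀ j, ∑ i, |a i j| ≤ t)
    (ε : ℝ) (hε0 : 0 < ε) (hε : ε ≤ 1 / 2) :
    ∃ (K : ℕ) (w : Fin K → ℝ) (y : Fin K → Fin n → ℝ),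
      (∀ k, 0 ≤ w k) ∧ ∑ k, w k = 1 ∧
      (∀ k j, -1 ≤ y k j ∧ y k j ≤ 1) ∧
      (∀ k i, |∑ j, a i j * y k j| ≤
        min (7400 * Real.sqrt t + 1800 * Real.log (1 / ε))
          (3120 * Real.sqrt t + 940000 * Real.sqrt (Real.log (1 / ε))
            * (1 + Real.log t) ^ (3 / 2 : ℝ))) ∧
      ∀ j, ∑ k ∈ Finset.univ.filter (fun k => ¬ (y k j = 1 ∨ y k j = -1)), w k ≤ ε := by
  have hcol2 : ∀ j, ∑ i, a i j ^ 2 ≤ t := by
    intro j
    refine (Finset.sum_le_sum fun i _ => ?_).trans (hcol j)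
    have h1 := ha i j
    have h2 := abs_nonneg (a i j)
    rw [← sq_abs]
    nlinarith
  apply H167KL.distribution
  intro p hp
  rcases min_choice (7400 * Real.sqrt t + 1800 * Real.log (1 / ε))
    (3120 * Real.sqrt t + 940000 * Real.sqrt (Real.log (1 / ε))
      * (1 + Real.log t) ^ (3 / 2 : ℝ)) with h | h
  · rw [h]
    exact H167BJ.weighted a ha t ht hcol ε hε0 hε p hp
  · rw [h]
    exact H167KL.weighted a t ht ha hcol2 ε hε0 hε p hp

end Pool.Agent.Results.MP_e8ee11_co.BeckFialaLogN
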