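import Pool.Agent.H320R2.LD.Final

set_option autoImplicit false

open Finset

namespace Pool.Agent.Results.MP_e8ee11_co.SparseBeckFiala

open Pool.Agent.H320R2.LD

/-- There is an absolute constant `C` such that every set system of maximum degree at most `t`
whose sets have at most `k` elements has a colouring `χ` with
`|χ(S)| ≤ C * sqrt (t + |S| + k^(2/3))` for every set `S` of the system.
In particular the Beck-Fiala bound `O(sqrt t)` holds for all systems with `k ≤ t`, and for every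
set with at most `t` elements when `k ≤ t^(3/2)`. -/
theorem result :
    ∃ C : ℝ, 0 < C ∧
      ∀ (n m t k : ℕ) (S : Fin m → Finset (Fin n)),
        (∀ i : Fin n, (Finset.univ.filter (fun j : Fin m => i ∈ S j)).card ≤ t) →
        (∀ j : Fin m, (S j).card ≤ k) →
        ∃ χ : Fin n → ℤ, (∀ i, χ i = 1 ∨ χ i = -1) ∧
          ∀ j : Fin m, ((|∑ i ∈ S j, χ i| : ℤ) : ℝ) ≤
            C * Real.sqrt ((t : ℝ) + ((S j).card : ℝ) + (k : ℝ) ^ (2 / 3 : ℝ)) := by
  obtain ⟨C, hC, h⟩ := main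
  refine ⟨C * Real.sqrt 2, by positivity, ?_⟩
  intro n m t k S h1 h2
  set τ : ℝ := max 1 (max (t : ℝ) ((k : ℝ) ^ (2 / 3 : ℝ))) with hτ
  have hτ1 : 1 ≤ τ := le_max_left _ _
  have hτ0 : 0 < τ := by linarith
  have hτt : (t : ℝ) ≤ τ := (le_max_left _ _).trans (le_max_right _ _)
  have hτk : (k : ℝ) ^ (2 / 3 : ℝ) ≤ τ := (le_max_right _ _).trans (le_max_right _ _)
  have hk0 : (0 : ℝ) ≤ (k : ℝ) := Nat.cast_nonneg k
  have hk32 : (k : ℝ) ≤ τ ^ (3 / 2 : ℝ) := by
    have e1 : ((k : ℝ) ^ (2 / 3 : ℝ)) ^ (3 / 2 : ℝ) = k := by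
      rw [← Real.rpow_mul hk0]; norm_num
    calc (k : ℝ) = ((k : ℝ) ^ (2 / 3 : ℝ)) ^ (3 / 2 : ℝ) := e1.symm
      _ ≤ τ ^ (3 / 2 : ℝ) :=
          Real.rpow_le_rpow (Real.rpow_nonneg hk0 _) hτk (by norm_num)
  have ht32 : (t : ℝ) ≤ τ ^ (3 / 2 : ℝ) := by
    calc (t : ℝ) ≤ τ := hτt
      _ = τ ^ (1 : ℝ) := (Real.rpow_one _).symm
      _ ≤ τ ^ (3 / 2 : ℝ) := Real.rpow_le_rpow_of_exponent_le hτ1 (by norm_num)
  -- row scale
  set w : Fin m → ℝ := fun j => max τ ((S j).card : ℝ) with hw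
  have hwτ : ∀ j, τ ≤ w j := fun j => le_max_left _ _
  have hw0 : ∀ j, 0 < w j := fun j => lt_of_lt_of_le hτ0 (hwτ j)
  set A : Fin m → Fin n → ℝ := fun j i => if i ∈ S j then 1 / Real.sqrt (w j) else 0 with hA
  have hAsq : ∀ j i, A j i ^ 2 = if i ∈ S j then 1 / w j else 0 := by
    intro j i
    simp only [hA]
    split_ifs
    · rw [div_pow, Real.sq_sqrt (hw0 j).le, one_pow]
    · norm_num
  have hAne : ∀ j i, A j i ≠ 0 → i ∈ S j := by
    intro j i hne
    by_contra hni
    apply hne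
    simp only [hA, if_neg hni]
  have hadm : Adm τ A := by
    refine ⟨fun j i => ?_, fun j => ?_, fun i => ?_, fun j => ?_, fun i => ?_⟩
    · rw [hAsq]
      split_ifs
      · rw [div_mul_eq_mul_div, one_mul, div_le_one (hw0 j)]
        exact hwτ j
      · norm_num
    · simp_rw [hAsq]
      rw [← Finset.sum_filter, Finset.sum_const, Finset.filter_mem_eq_inter, Finset.univ_inter,
        nsmul_eq_mul, mul_one_div, div_le_one (hw0 j)]
      exact le_max_right _ _
    · simp_rw [hAsq]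
      calc ∑ j, (if i ∈ S j then 1 / w j else 0)
          ≤ ∑ j, (if i ∈ S j then 1 / τ else 0) := by
            refine Finset.sum_le_sum fun j _ => ?_
            split_ifs
            · exact one_div_le_one_div_of_le hτ0 (hwτ j)
            · exact le_rfl
        _ = ((Finset.univ.filter (fun j : Fin m => i ∈ S j)).card : ℝ) * (1 / τ) := by
            rw [← Finset.sum_filter, Finset.sum_const, nsmul_eq_mul]
        _ ≤ t * (1 / τ) := by
            have := h1 i
            gcongr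
        _ ≤ 1 := by
            rw [mul_one_div, div_le_one hτ0]
            exact hτt
    · refine le_trans ?_ (le_trans (Nat.cast_le.2 (h2 j)) hk32)
      rw [Nat.cast_le]
      refine Finset.card_le_card fun i hi => ?_
      rw [Finset.mem_filter] at hi
      exact hAne j i hi.2
    · refine le_trans ?_ (le_trans (Nat.cast_le.2 (h1 i)) ht32)
      rw [Nat.cast_le]
      refine Finset.card_le_card fun j hj => ?_
      rw [Finset.mem_filter] at hj ⊢
      exact ⟨hj.1, hAne j i hj.2⟩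
  obtain ⟨x, hx1, hx2⟩ := h τ hτ1 (Fin n) (Fin m) A hadm
  refine ⟨fun i => if x i = 1 then 1 else -1, fun i => ?_, fun j => ?_⟩
  · show (if x i = 1 then (1 : ℤ) else -1) = 1 ∨ (if x i = 1 then (1 : ℤ) else -1) = -1
    split_ifs
    · exact Or.inl rfl
    · exact Or.inr rfl
  have hxi : ∀ i, (((if x i = 1 then 1 else -1 : ℤ)) : ℝ) = x i := by
    intro i
    rcases hx1 i with h3 | h3
    · rw [if_pos h3, h3]; norm_num
    · rw [if_neg (by rw [h3]; norm_num), h3]; norm_num
  push_cast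
  have e1 : ∑ i ∈ S j, (if x i = 1 then (1 : ℝ) else -1) = ∑ i ∈ S j, x i := by
    refine Finset.sum_congr rfl fun i _ => ?_
    have := hxi i
    push_cast at this
    exact this
  rw [e1]
  rcases (S j).eq_empty_or_nonempty with he | hne
  · rw [he]
    simp only [Finset.sum_empty, abs_zero]
    positivity
  · have hsq : 0 < Real.sqrt (w j) := Real.sqrt_pos.2 (hw0 j)
    have h3 : ∑ v, A j v * x v = 1 / Real.sqrt (w j) * ∑ i ∈ S j, x i := by
      rw [Finset.mul_sum]
      simp only [hA, ite_mul, zero_mul]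
      rw [Finset.sum_ite_mem, Finset.univ_inter]
    have h4 := hx2 j
    rw [h3, abs_mul, abs_of_pos (by positivity : (0 : ℝ) < 1 / Real.sqrt (w j)), one_div,
      inv_mul_le_iff₀ hsq] at h4
    refine h4.trans ?_
    have hcard : (1 : ℝ) ≤ ((S j).card : ℝ) := by
      exact_mod_cast Finset.card_pos.2 hne
    have h5 : w j ≤ 2 * ((t : ℝ) + ((S j).card : ℝ) + (k : ℝ) ^ (2 / 3 : ℝ)) := by
      have hkp : 0 ≤ (k : ℝ) ^ (2 / 3 : ℝ) := Real.rpow_nonneg hk0 _
      have ht0 : (0 : ℝ) ≤ (t : ℝ) := Nat.cast_nonneg t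
      simp only [hw, hτ]
      refine max_le (max_le ?_ (max_le ?_ ?_)) ?_ <;> linarith
    calc Real.sqrt (w j) * C
        ≤ Real.sqrt (2 * ((t : ℝ) + ((S j).card : ℝ) + (k : ℝ) ^ (2 / 3 : ℝ))) * C :=
          mul_le_mul_of_nonneg_right (Real.sqrt_le_sqrt h5) hC.le
      _ = C * Real.sqrt 2 * Real.sqrt ((t : ℝ) + ((S j).card : ℝ) + (k : ℝ) ^ (2 / 3 : ℝ)) := by
          rw [Real.sqrt_mul (by norm_num)]; ring

end Pool.Agent.Results.MP_e8ee11_co.SparseBeckFiala
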